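import Pool.Agent.W223.AC.Stms

set_option autoImplicit false

/-!
# A nonzero multiple in `ℚ[X]`
-/

namespace Pool.Agent.W460.AC

open Pool.Agent.W223.AC
open Polynomial

/-- NORM: a nonzero multiple in `ℚ[X]`. -/
theorem t : StmtNORM := by
  intro A _ _ _ _ _ g hg
  have h1 : (Ideal.span {g}).comap (algebraMap ℚ[X] A) ≠ ⊥ :=
    Ideal.comap_ne_bot_of_integral_mem hg (Ideal.mem_span_singleton_self g)
      (Algebra.IsIntegral.isIntegral g)
  obtain ⟨G, hG, hG0⟩ := Submodule.exists_mem_ne_zero_of_ne_bot h1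
  rw [Ideal.mem_comap, Ideal.mem_span_singleton'] at hG
  obtain ⟨h, hh⟩ := hG
  refine ⟨G, hG0, fun L _ _ φ hne hg0 => hne ?_⟩
  have h2 : (φ.comp (algebraMap ℚ[X] A)) = ((aeval (φ (tt A))) : ℚ[X] →ₐ[ℚ] L).toRingHom := by
    refine Polynomial.ringHom_ext' (RingHom.ext_rat _ _) ?_
    change φ (algebraMap ℚ[X] A X) = aeval (φ (tt A)) (X : ℚ[X])
    rw [aeval_X]
    rfl
  have h3 : aeval (φ (tt A)) G = φ (algebraMap ℚ[X] A G) := by
    have := RingHom.congr_fun h2 G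
    exact this.symm
  rw [h3, ← hh, map_mul, hg0, mul_zero]

end Pool.Agent.W460.AC
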